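import Pool.Agent.helper91.RB.Spec4

/-!
# Row rb:CO1 (MP_24e2e7_nt): orthogonality
-/

set_option autoImplicit false

namespace Pool.Agent.RB

open Module
open scoped Classical

lemma CO1_orth (G : Type) [CommGroup G] [Finite G] (ρ : G) :
    ∑ χ : G →* ℂˣ, ((χ ρ : ℂˣ) : ℂ) = if ρ = 1 then (Nat.card G : ℂ) else 0 := by
  split_ifs with h
  · subst h
    simp only [map_one, Units.val_one, Finset.sum_const, Finset.card_univ, nsmul_eq_mul, mul_one]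
    rw [← Nat.card_eq_fintype_card, CommGroup.card_monoidHom_of_hasEnoughRootsOfUnity G ℂ]
  · obtain ⟨φ, hφ⟩ := CommGroup.exists_apply_ne_one_of_hasEnoughRootsOfUnity G ℂ h
    have h1 : ((φ ρ : ℂˣ) : ℂ) * ∑ χ : G →* ℂˣ, ((χ ρ : ℂˣ) : ℂ) =
        ∑ χ : G →* ℂˣ, ((χ ρ : ℂˣ) : ℂ) := by
      rw [Finset.mul_sum]
      refine Fintype.sum_equiv (Equiv.mulLeft φ) _ _ (fun χ => ?_)
      simp
    have h2 : (((φ ρ : ℂˣ) : ℂ) - 1) * ∑ χ : G →* ℂˣ, ((χ ρ : ℂˣ) : ℂ) = 0 := by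
      rw [sub_mul, h1, one_mul, sub_self]
    rcases mul_eq_zero.mp h2 with h3 | h3
    · exact absurd (Units.ext (by rw [Units.val_one]; exact sub_eq_zero.mp h3)) hφ
    · exact h3

lemma CO1_sq {x : ℂ} (h : x ^ 2 = 1) : x = 1 ∨ x = -1 := by
  have h1 : (x - 1) * (x + 1) = 0 := by ring_nf; rw [h]; ring
  rcases mul_eq_zero.mp h1 with h2 | h2
  · exact Or.inl (sub_eq_zero.mp h2)
  · exact Or.inr (eq_neg_of_add_eq_zero_left h2)

lemma CO1_geom (n : ℕ) (w : ℂˣ) (hw : w ^ n = 1) :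
    ∑ j ∈ Finset.range n, (w : ℂ) ^ j = if w = 1 then (n : ℂ) else 0 := by
  split_ifs with h
  · subst h
    simp
  · have h1 : (w : ℂ) ≠ 1 := fun h2 => h (Units.ext (by rw [Units.val_one]; exact h2))
    rw [geom_sum_eq h1]
    have h3 : (w : ℂ) ^ n = 1 := by
      rw [← Units.val_pow_eq_pow_val, hw, Units.val_one]
    rw [h3, sub_self, zero_div]

lemma CO1_ev (G : Type) [CommGroup G] [Fintype G] (χ : G →* ℂˣ) (y : MonoidAlgebra ℚ G) :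
    evQ χ y = ∑ τ : G, ((y.coeff τ : ℚ) : ℂ) * ((χ τ : ℂˣ) : ℂ) := by
  have h1 : evQ χ y = (MonoidAlgebra.lift ℚ ℂ G ((Units.coeHom ℂ).comp χ)) y := rfl
  rw [h1, MonoidAlgebra.lift_apply', Finsupp.sum_fintype]
  · refine Finset.sum_congr rfl fun τ _ => ?_
    rfl
  · intro τ
    simp

theorem CO1 : CO1_stmt := by
  intro G _ _ h g₀ hg₀ ζ hζ y hy σ
  have : Fintype G := Fintype.ofFinite G
  have hgn : g₀ ^ 2 ^ (h + 1) = 1 := by rw [← hg₀]; exact pow_orderOf_eq_one g₀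
  have hzn : ζ ^ 2 ^ (h + 1) = 1 := by rw [← hζ]; exact pow_orderOf_eq_one ζ
  -- the sign of ζ
  have hz2 : (ζ : ℂ) ^ 2 ^ h = -1 := by
    have h1 : ((ζ : ℂ) ^ 2 ^ h) ^ 2 = 1 := by
      rw [← pow_mul, ← pow_succ, ← Units.val_pow_eq_pow_val, hzn, Units.val_one]
    rcases (CO1_sq h1) with h2 | h2
    · exfalso
      have h3 : ζ ^ 2 ^ h = 1 := Units.ext (by rw [Units.val_pow_eq_pow_val, h2, Units.val_one])
      have h4 := orderOf_dvd_of_pow_eq_one h3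
      rw [hζ] at h4
      have h5 := Nat.le_of_dvd (by positivity) h4
      rw [pow_succ] at h5
      have h6 : 0 < 2 ^ h := by positivity
      omega
    · exact h2
  -- the sign of y
  have hy2 : ∀ τ : G, y.coeff (g₀ ^ 2 ^ h * τ) = - y.coeff τ := by
    intro τ
    have h1 := congrArg (fun z : MonoidAlgebra ℚ G => z.coeff (g₀ ^ 2 ^ h * τ)) hy
    simp only [MonoidAlgebra.coeff_single_mul_apply, one_mul] at h1
    rw [inv_mul_cancel_left] at h1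
    rw [MonoidAlgebra.coeff_neg, Finsupp.neg_apply] at h1
    rw [h1, neg_neg]
  -- step 1
  have hind : ∀ χ : G →* ℂˣ, ∑ j ∈ Finset.range (2 ^ (h + 1)), ((χ g₀ : ℂˣ)⁻¹ * ζ : ℂˣ).val ^ j =
      if χ g₀ = ζ then (2 : ℂ) ^ (h + 1) else 0 := by
    intro χ
    rw [CO1_geom]
    · have h1 : ((χ g₀)⁻¹ * ζ = 1) ↔ (χ g₀ = ζ) := by
        rw [inv_mul_eq_one]
      simp only [h1]
      push_cast
      rfl
    · rw [mul_pow, inv_pow, ← map_pow, hgn, map_one, inv_one, one_mul, hzn]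
  have hmain : (2 : ℂ) ^ (h + 1) * ∑ χ ∈ Finset.univ.filter (fun χ : G →* ℂˣ => χ g₀ = ζ),
      evQ χ y * ((χ σ)⁻¹ : ℂˣ) =
      ∑ j ∈ Finset.range (2 ^ (h + 1)), (Nat.card G : ℂ) * (((y.coeff (σ * g₀ ^ j) : ℚ) : ℂ) * (ζ : ℂ) ^ j) := by
    rw [Finset.sum_filter, Finset.mul_sum]
    have h1 : ∀ χ : G →* ℂˣ, (2 : ℂ) ^ (h + 1) * (if χ g₀ = ζ then evQ χ y * (((χ σ)⁻¹ : ℂˣ) : ℂ) else 0) =
        ∑ j ∈ Finset.range (2 ^ (h + 1)), ∑ τ : G, (((y.coeff τ : ℚ) : ℂ) * (ζ : ℂ) ^ j) *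
          ((χ (τ * σ⁻¹ * (g₀ ^ j)⁻¹) : ℂˣ) : ℂ) := by
      intro χ
      have h2 : (2 : ℂ) ^ (h + 1) * (if χ g₀ = ζ then evQ χ y * (((χ σ)⁻¹ : ℂˣ) : ℂ) else 0) =
          (if χ g₀ = ζ then (2 : ℂ) ^ (h + 1) else 0) * (evQ χ y * (((χ σ)⁻¹ : ℂˣ) : ℂ)) := by
        split_ifs <;> simp
      rw [h2, ← hind χ, Finset.sum_mul]
      refine Finset.sum_congr rfl fun j _ => ?_
      rw [CO1_ev, Finset.sum_mul, Finset.mul_sum]
      refine Finset.sum_congr rfl fun τ _ => ?_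
      simp only [map_mul, map_inv, map_pow, Units.val_mul, mul_pow, Units.val_pow_eq_pow_val, Units.val_inv_eq_inv_val, inv_pow]
      ring
    rw [Finset.sum_congr rfl (fun χ _ => h1 χ), Finset.sum_comm]
    refine Finset.sum_congr rfl fun j _ => ?_
    rw [Finset.sum_comm]
    have h3 : ∀ τ : G, ∑ χ : G →* ℂˣ, (((y.coeff τ : ℚ) : ℂ) * (ζ : ℂ) ^ j) *
          ((χ (τ * σ⁻¹ * (g₀ ^ j)⁻¹) : ℂˣ) : ℂ) =
        if τ = σ * g₀ ^ j then (Nat.card G : ℂ) * (((y.coeff τ : ℚ) : ℂ) * (ζ : ℂ) ^ j) else 0 := by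
      intro τ
      rw [← Finset.mul_sum, CO1_orth]
      have h4 : (τ * σ⁻¹ * (g₀ ^ j)⁻¹ = 1) ↔ (τ = σ * g₀ ^ j) := by
        rw [mul_inv_eq_one, mul_inv_eq_iff_eq_mul, mul_comm]
      simp only [h4]
      split_ifs
      · ring
      · ring
    rw [Finset.sum_congr rfl (fun τ _ => h3 τ), Finset.sum_ite_eq' Finset.univ]
    simp
  rw [hmain, ← Finset.mul_sum]
  have h5 : (2 : ℕ) ^ (h + 1) = 2 ^ h + 2 ^ h := by rw [pow_succ]; ring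
  rw [h5, Finset.sum_range_add]
  have h6 : ∀ i ∈ Finset.range (2 ^ h), ((y.coeff (σ * g₀ ^ (2 ^ h + i)) : ℚ) : ℂ) * (ζ : ℂ) ^ (2 ^ h + i) =
      ((y.coeff (σ * g₀ ^ i) : ℚ) : ℂ) * (ζ : ℂ) ^ i := by
    intro i _
    have h7 : σ * g₀ ^ (2 ^ h + i) = g₀ ^ 2 ^ h * (σ * g₀ ^ i) := by
      rw [pow_add]
      exact mul_left_comm _ _ _
    rw [h7, hy2, pow_add, hz2]
    push_cast
    ring
  rw [Finset.sum_congr rfl h6]
  ring

end Pool.Agent.RB
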